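import Mathlib

/-!
# MP_81ec8a_co: Turán numbers of directed paths

The conjecture says that for all `k ≥ 1` and `n ≥ 3 k` the largest number of arcs of a digraph on
`n` vertices without the directed path on `k + 1` vertices is the number of edges of the Turán
graph `T_{n,k}`. It is false, and no condition `n ≥ C k` is sufficient.

The digraph: a complete digraph on `j` vertices, followed by `j` independent sets
`V_1, …, V_j` of `2 c - 1` vertices; all arcs go from the complete digraph to all the `V_i`, and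
from `V_a` to `V_b` for `a < b`. It has `2 j c` vertices, and every directed path has at most
`2 j` vertices. For `k = 2 j`, `n = c k` it has `j (j - 3 - 2 c² + 4 c) / 2` arcs more than
`T_{n,k}`.
-/

set_option autoImplicit false

open Finset

namespace Pool.Agent.Results.MP_81ec8a_co.CliqueBeforeTuran

/-- The number of arcs of a digraph (a relation) on a finite vertex set. -/
noncomputable def arcs {V : Type} [Fintype V] (D : V → V → Prop) : ℕ :=
  Nat.card {p : V × V // D p.1 p.2}

/-- The digraph `D` contains the directed path on `m` vertices: there are distinct vertices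
`f 0, …, f (m - 1)` with arcs from `f i` to `f (i + 1)`. -/
def HasPath {V : Type} (D : V → V → Prop) (m : ℕ) : Prop :=
  ∃ f : Fin m → V, Function.Injective f ∧
    ∀ (i : ℕ) (h : i + 1 < m), D (f ⟨i, by omega⟩) (f ⟨i + 1, h⟩)

/-- `ex(n, P_m)`: the largest number of arcs of a strict digraph (no loops, no parallel arcs, arcs
in both directions allowed) on `n` vertices without the directed path on `m` vertices. -/
noncomputable def ex (n m : ℕ) : ℕ :=
  sSup {a | ∃ D : Fin n → Fin n → Prop, (∀ v, ¬ D v v) ∧ ¬ HasPath D m ∧ arcs D = a}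

/-- The number of arcs of `T_{n,k}`: `(k-1)/(2k) n² - r (k-r) / (2k)`, `r = n mod k`. -/
def turan (n k : ℕ) : ℚ :=
  ((k : ℚ) - 1) / (2 * k) * (n : ℚ) ^ 2 -
    ((n % k : ℕ) : ℚ) * ((k : ℚ) - ((n % k : ℕ) : ℚ)) / (2 * k)

lemma arcs_le {n : ℕ} (D : Fin n → Fin n → Prop) : arcs D ≤ n * n := by
  unfold arcs
  have h := Nat.card_le_card_of_injective
    (fun p : {p : Fin n × Fin n // D p.1 p.2} => p.1) Subtype.val_injective
  simpa using h

lemma le_ex {n m : ℕ} (D : Fin n → Fin n → Prop) (h1 : ∀ v, ¬ D v v) (h2 : ¬ HasPath D m) :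
    arcs D ≤ ex n m := by
  apply le_csSup
  · refine ⟨n * n, ?_⟩
    rintro a ⟨D', -, -, rfl⟩
    exact arcs_le D'
  · exact ⟨D, h1, h2, rfl⟩

/-- The vertices: a clique of `j` vertices and `j` independent sets of `w` vertices. -/
abbrev Vert (j w : ℕ) : Type := Fin j ⊕ (Fin j × Fin w)

/-- The digraph. -/
def Dg (j w : ℕ) : Vert j w → Vert j w → Prop
  | .inl a, .inl b => a ≠ b
  | .inl _, .inr _ => True
  | .inr _, .inl _ => False
  | .inr p, .inr q => p.1 < q.1

lemma Dg_irrefl (j w : ℕ) (v : Vert j w) : ¬ Dg j w v v := by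
  rcases v with a | p <;> simp [Dg]

/-- The rank of a vertex. -/
def rk {j w : ℕ} : Vert j w → Fin j ⊕ Fin j
  | .inl a => .inl a
  | .inr p => .inr p.1

lemma Dg_noPath (j w : ℕ) : ¬ HasPath (Dg j w) (2 * j + 1) := by
  rintro ⟨f, hf, harc⟩
  -- once a path is outside the clique, the classes increase
  have key : ∀ (d i : ℕ) (hi : i + d + 1 < 2 * j + 1) (p : Fin j × Fin w),
      f ⟨i, by omega⟩ = .inr p →
      ∃ q : Fin j × Fin w, f ⟨i + d + 1, hi⟩ = .inr q ∧ p.1 < q.1 := by
    intro d
    induction d with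
    | zero =>
      intro i hi p hp
      have h := harc i (by omega)
      rw [hp] at h
      generalize hv : f ⟨i + 1, by omega⟩ = v at h
      rcases v with a | q
      · simp [Dg] at h
      · exact ⟨q, rfl, h⟩
    | succ d ih =>
      intro i hi p hp
      obtain ⟨q, hq, hpq⟩ := ih i (by omega) p hp
      have h := harc (i + d + 1) (by omega)
      rw [hq] at h
      generalize hv : f ⟨i + d + 1 + 1, by omega⟩ = v at h
      rcases v with a | r
      · simp [Dg] at h
      · exact ⟨r, rfl, lt_trans hpq h⟩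
  have hlt : ∀ a b : Fin (2 * j + 1), a < b → rk (f a) ≠ rk (f b) := by
    intro a b hab heq
    have hne : f a ≠ f b := fun h => absurd (hf h) hab.ne
    generalize hva : f a = va at heq hne
    rcases va with x | p
    · generalize hvb : f b = vb at heq hne
      rcases vb with y | q
      · simp only [rk, Sum.inl.injEq] at heq
        exact hne (by rw [heq])
      · simp [rk] at heq
    · have hab' : (a : ℕ) < b := hab
      obtain ⟨q, hq, hpq⟩ := key ((b : ℕ) - a - 1) a (by have := b.2; omega) p (by simpa using hva)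
      have hb : (⟨(a : ℕ) + ((b : ℕ) - a - 1) + 1, by have := b.2; omega⟩ : Fin (2 * j + 1)) = b := by
        apply Fin.ext
        simp only
        omega
      rw [hb] at hq
      rw [hq] at heq
      simp only [rk, Sum.inr.injEq] at heq
      rw [heq] at hpq
      exact lt_irrefl _ hpq
  have hinj : Function.Injective (fun a => rk (f a)) := by
    intro a b hab
    rcases lt_trichotomy a b with h | h | h
    · exact absurd hab (hlt a b h)
    · exact h
    · exact absurd hab.symm (hlt b a h)
  have hcard := Fintype.card_le_of_injective _ hinj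
  simp only [Fintype.card_fin, Fintype.card_sum] at hcard
  omega

lemma arcs_eq_sum {V : Type} [Fintype V] (D : V → V → Prop) [∀ x y, Decidable (D x y)] :
    arcs D = ∑ x, ∑ y, if D x y then 1 else 0 := by
  unfold arcs
  rw [Nat.card_eq_fintype_card, Fintype.card_subtype, Finset.card_filter, Fintype.sum_prod_type]

lemma sum_ne (j : ℕ) : (∑ a : Fin j, ∑ b : Fin j, if a ≠ b then 1 else 0) + j = j * j := by
  have h : ∀ a : Fin j, (∑ b : Fin j, if a ≠ b then 1 else 0) + 1 = j := by
    intro a
    have h1 : (∑ b : Fin j, if a ≠ b then 1 else 0) + (∑ b : Fin j, if a = b then 1 else 0) =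
        ∑ _b : Fin j, 1 := by
      rw [← sum_add_distrib]
      refine sum_congr rfl fun b _ => ?_
      by_cases hab : a = b <;> simp [hab]
    simpa using h1
  have h2 : ∑ a : Fin j, ((∑ b : Fin j, if a ≠ b then 1 else 0) + 1) = ∑ _a : Fin j, j :=
    sum_congr rfl fun a _ => h a
  rw [sum_add_distrib] at h2
  simpa using h2

lemma sum_lt (j : ℕ) : 2 * (∑ a : Fin j, ∑ b : Fin j, if a < b then 1 else 0) + j = j * j := by
  have h1 : (∑ a : Fin j, ∑ b : Fin j, if a < b then 1 else 0) =
      ∑ a : Fin j, ∑ b : Fin j, if b < a then 1 else 0 := by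
    rw [sum_comm]
  have h2 : (∑ a : Fin j, ∑ b : Fin j, if a ≠ b then 1 else 0) =
      (∑ a : Fin j, ∑ b : Fin j, if a < b then 1 else 0) +
      (∑ a : Fin j, ∑ b : Fin j, if b < a then 1 else 0) := by
    rw [← sum_add_distrib]
    refine sum_congr rfl fun a _ => ?_
    rw [← sum_add_distrib]
    refine sum_congr rfl fun b _ => ?_
    rcases lt_trichotomy a b with h | h | h
    · simp [h, h.ne, not_lt.2 h.le]
    · simp [h]
    · simp [h, h.ne', not_lt.2 h.le]
  have h3 := sum_ne j
  omega

lemma arcs_Dg (j w : ℕ) :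
    2 * arcs (Dg j w) + 2 * j + j * (w * w) = 2 * (j * j) + 2 * (j * (j * w)) +
      (j * j) * (w * w) := by
  classical
  have h1 : arcs (Dg j w) = (∑ a : Fin j, ∑ b : Fin j, if a ≠ b then 1 else 0) + j * (j * w) +
      (∑ a : Fin j, ∑ b : Fin j, if a < b then 1 else 0) * (w * w) := by
    rw [arcs_eq_sum]
    have hLL : ∀ a b : Fin j, (if Dg j w (.inl a) (.inl b) then 1 else 0) =
        if a ≠ b then 1 else 0 := fun a b => if_congr Iff.rfl rfl rfl
    have hLR : ∀ (a : Fin j) (p : Fin j × Fin w), (if Dg j w (.inl a) (.inr p) then 1 else 0) =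
        1 := fun a p => if_pos trivial
    have hRL : ∀ (a : Fin j) (p : Fin j × Fin w), (if Dg j w (.inr p) (.inl a) then 1 else 0) =
        0 := fun a p => if_neg (fun h => h)
    have hRR : ∀ p q : Fin j × Fin w, (if Dg j w (.inr p) (.inr q) then 1 else 0) =
        if p.1 < q.1 then 1 else 0 := fun p q => if_congr Iff.rfl rfl rfl
    simp only [Fintype.sum_sum_type, hLL, hLR, hRL, hRR]
    simp only [Fintype.sum_prod_type,
      sum_add_distrib, sum_const_zero, zero_add, sum_const, card_univ, Fintype.card_fin,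
      smul_eq_mul, mul_one, Fintype.card_prod]
    congr 1
    rw [sum_mul]
    refine sum_congr rfl fun a _ => ?_
    change (∑ _x : Fin w, ∑ b : Fin j, ∑ _y : Fin w, if a < b then 1 else 0) = _
    simp only [sum_const, card_univ, Fintype.card_fin, smul_eq_mul]
    rw [← mul_sum]
    ring
  have h2 := sum_ne j
  have h3 := sum_lt j
  rw [h1]
  set S := ∑ a : Fin j, ∑ b : Fin j, if a ≠ b then 1 else 0
  set T := ∑ a : Fin j, ∑ b : Fin j, if a < b then 1 else 0
  nlinarith

lemma arcs_transport {V : Type} [Fintype V] {n : ℕ} (e : V ≃ Fin n) (D : V → V → Prop) :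
    arcs (fun x y => D (e.symm x) (e.symm y)) = arcs D := by
  unfold arcs
  refine Nat.card_congr ?_
  refine Equiv.subtypeEquiv (Equiv.prodCongr e.symm e.symm) ?_
  rintro ⟨a, b⟩
  rfl

lemma noPath_transport {V : Type} {n m : ℕ} (e : V ≃ Fin n) (D : V → V → Prop)
    (h : ¬ HasPath D m) : ¬ HasPath (fun x y => D (e.symm x) (e.symm y)) m := by
  rintro ⟨f, hf, harc⟩
  exact h ⟨fun i => e.symm (f i), e.symm.injective.comp hf, harc⟩

lemma main_ineq (c j : ℕ) (hc : 1 ≤ c) (hj : 2 * (c - 1) ^ 2 + 2 ≤ j) :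
    turan (c * (2 * j)) (2 * j) < (ex (c * (2 * j)) (2 * j + 1) : ℚ) := by
  obtain ⟨b, rfl⟩ : ∃ b, c = b + 1 := ⟨c - 1, by omega⟩
  simp only [Nat.add_sub_cancel] at hj
  have hcard : Fintype.card (Vert j (2 * b + 1)) = (b + 1) * (2 * j) := by
    simp only [Fintype.card_sum, Fintype.card_prod, Fintype.card_fin]
    ring
  have e : Vert j (2 * b + 1) ≃ Fin ((b + 1) * (2 * j)) := Fintype.equivFinOfCardEq hcard
  have h1 := le_ex (m := 2 * j + 1) (fun x y => Dg j (2 * b + 1) (e.symm x) (e.symm y))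
    (fun v => Dg_irrefl _ _ _) (noPath_transport e _ (Dg_noPath j (2 * b + 1)))
  rw [arcs_transport] at h1
  have h2 := arcs_Dg j (2 * b + 1)
  have hj0 : (0 : ℚ) < j := by
    have : 0 < j := by omega
    exact_mod_cast this
  have h3 : turan ((b + 1) * (2 * j)) (2 * j) =
      (2 * (j : ℚ) - 1) * j * ((b : ℚ) + 1) ^ 2 := by
    unfold turan
    rw [Nat.mul_mod_left]
    push_cast
    field_simp
    ring
  rw [h3]
  have h4 : (arcs (Dg j (2 * b + 1)) : ℚ) ≤ (ex ((b + 1) * (2 * j)) (2 * j + 1) : ℚ) := by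
    exact_mod_cast h1
  refine lt_of_lt_of_le ?_ h4
  have h5 : 2 * (arcs (Dg j (2 * b + 1)) : ℚ) + 2 * j + j * ((2 * b + 1) * (2 * b + 1)) =
      2 * (j * j) + 2 * (j * (j * (2 * b + 1))) + (j * j) * ((2 * b + 1) * (2 * b + 1)) := by
    exact_mod_cast h2
  have h6 : 2 * (b : ℚ) ^ 2 + 2 ≤ j := by exact_mod_cast hj
  nlinarith [mul_pos hj0 (show (0 : ℚ) < j - (2 * (b : ℚ) ^ 2 + 1) by linarith)]

/-- **The conjecture is false.** (1) For `c ≥ 1`, `j ≥ 2 (c - 1)² + 2`, `k = 2 j` and `n = c k`
there are digraphs on `n` vertices without the directed path on `k + 1` vertices that have more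
arcs than `T_{n,k}`; for example `k = 20`, `n = 60 = 3 k`. (2) No linear condition `n ≥ C k` is
sufficient. (3) In particular the conjecture (`n ≥ 3 k`) is false. -/
theorem result :
    (∀ c j : ℕ, 1 ≤ c → 2 * (c - 1) ^ 2 + 2 ≤ j →
      turan (c * (2 * j)) (2 * j) < (ex (c * (2 * j)) (2 * j + 1) : ℚ)) ∧
    turan 60 20 < (ex 60 21 : ℚ) ∧
    (∀ C : ℕ, ∃ k n : ℕ, 1 ≤ k ∧ C * k ≤ n ∧ turan n k < (ex n (k + 1) : ℚ)) ∧
    ¬ ∀ k n : ℕ, 1 ≤ k → 3 * k ≤ n → (ex n (k + 1) : ℚ) = turan n k := by
  have h1 : turan 60 20 < (ex 60 21 : ℚ) := main_ineq 3 10 (by norm_num) (by norm_num)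
  refine ⟨main_ineq, h1, ?_, ?_⟩
  · intro C
    refine ⟨2 * (2 * C ^ 2 + 2), (C + 1) * (2 * (2 * C ^ 2 + 2)), by omega, ?_, ?_⟩
    · exact Nat.mul_le_mul_right _ (Nat.le_succ C)
    · exact main_ineq (C + 1) (2 * C ^ 2 + 2) (by omega) (by simp)
  · intro h
    have := h 20 60 (by norm_num) (by norm_num)
    rw [this] at h1
    exact lt_irrefl _ h1

end Pool.Agent.Results.MP_81ec8a_co.CliqueBeforeTuran
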